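import Pool.Agent.H67.AG.T1

/-!
ABSOLUTE GAP (`MP_c59857_nt`): row `ME`, the mean ergodic theorem.
-/

set_option autoImplicit false

open MeasureTheory ProbabilityTheory Filter Topology Finset
open scoped Nat ENNReal

namespace Pool.Agent.H26.AG

open Pool.Agent.H67.AG

theorem proj_congr {E : Type} [NormedAddCommGroup E] [InnerProductSpace ℝ E]
    (K K' : Submodule ℝ E) [K.HasOrthogonalProjection] [K'.HasOrthogonalProjection]
    (h : K = K') (x : E) :
    (K.orthogonalProjectionOnto x : E) = (K'.orthogonalProjectionOnto x : E) := by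
  subst h
  rfl

section

variable {Ω : Type} [mΩ : MeasurableSpace Ω] {P : Measure Ω} [IsProbabilityMeasure P]

theorem ae_of_fixed {T : Ω ≃ᵐ Ω} {W : ℕ} (hIF : T_IF) (hT : MeasurePreserving T P P)
    (g : Lp ℝ 2 P) (hg : (g : Ω → ℝ) ∘ (T^[W]) =ᵐ[P] g) :
    AEStronglyMeasurable[Inv T W] (g : Ω → ℝ) P := by
  have hS : MeasurePreserving (T^[W]) P P := hT.iterate W
  have ham : AEMeasurable (g : Ω → ℝ) P := (Lp.aestronglyMeasurable g).aemeasurable
  obtain ⟨G, hG, hgG⟩ : ∃ G : Ω → ℝ, Measurable G ∧ (g : Ω → ℝ) =ᵐ[P] G :=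
    ⟨ham.mk _, ham.measurable_mk, ham.ae_eq_mk⟩
  have hGS : G ∘ (T^[W]) =ᵐ[P] G :=
    ((hS.quasiMeasurePreserving.ae_eq_comp hgG).symm.trans hg).trans hgG
  have h1 : P[fun ω => Real.arctan (G ω) | Inv T W] =ᵐ[P] fun ω => Real.arctan (G ω) := by
    refine hIF Ω P T W (fun ω => Real.arctan (G ω)) hT (Real.measurable_arctan.comp hG)
      ⟨Real.pi / 2, fun ω => ?_⟩ ?_
    · exact (abs_lt.2 ⟨Real.neg_pi_div_two_lt_arctan _, Real.arctan_lt_pi_div_two _⟩).le
    · filter_upwards [hGS] with ω hω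
      simp only [Function.comp_apply] at hω
      simp only [hω]
  have htan : Measurable Real.tan := by
    have h : Real.tan = fun x => Real.sin x / Real.cos x := funext Real.tan_eq_sin_div_cos
    rw [h]
    exact Real.measurable_sin.div Real.measurable_cos
  refine ⟨fun ω => Real.tan ((P[fun ω => Real.arctan (G ω) | Inv T W]) ω), ?_, ?_⟩
  · exact (htan.comp (stronglyMeasurable_condExp.measurable)).stronglyMeasurable
  · filter_upwards [h1, hgG] with ω h2 h3
    rw [h2, Real.tan_arctan, h3]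

end

theorem pf_ME (hIF : T_IF) : T_ME := by
  intro Ω _ P _ T W f hT hf hb
  have hS : MeasurePreserving (T^[W]) P P := hT.iterate W
  have hm : Inv T W ≤ ‹MeasurableSpace Ω› := MeasurableSpace.invariants_le _
  have hfL : MemLp f 2 P := MemLp.of_bound hf.aestronglyMeasurable 1
    (ae_of_all _ fun ω => by simpa [Real.norm_eq_abs] using hb ω)
  let U : Lp ℝ 2 P →ₗᵢ[ℝ] Lp ℝ 2 P := Lp.compMeasurePreservingₗᵢ ℝ (T^[W]) hS
  have key := U.toContinuousLinearMap.tendsto_birkhoffAverage_orthogonalProjection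
    U.norm_toContinuousLinearMap_le (hfL.toLp f)
  have : Fact (Inv T W ≤ ‹MeasurableSpace Ω›) := ⟨hm⟩
  have hK : U.toContinuousLinearMap.eqLocus (1 : Lp ℝ 2 P →L[ℝ] Lp ℝ 2 P)
      = lpMeas ℝ ℝ (Inv T W) 2 P := by
    ext g
    have hU : (U g : Ω → ℝ) =ᵐ[P] (g : Ω → ℝ) ∘ (T^[W]) := Lp.coeFn_compMeasurePreserving g hS
    rw [mem_lpMeas_iff_aestronglyMeasurable]
    constructor
    · intro h
      have h' : U g = g := h
      refine ae_of_fixed hIF hT g ?_
      refine hU.symm.trans ?_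
      rw [h']
    · rintro ⟨g0, hg0, hgg⟩
      change U g = g
      refine Lp.ext ?_
      refine hU.trans ?_
      have h1 : (g : Ω → ℝ) ∘ (T^[W]) =ᵐ[P] g0 ∘ (T^[W]) :=
        hS.quasiMeasurePreserving.ae_eq_comp hgg
      have h2 : g0 ∘ (T^[W]) = g0 :=
        MeasurableSpace.comp_eq_of_measurable_invariants hg0.measurable
      rw [h2] at h1
      exact h1.trans hgg.symm
  -- the averages
  have hav : ∀ n : ℕ, ((birkhoffAverage ℝ U.toContinuousLinearMap _root_.id n (hfL.toLp f) : Lp ℝ 2 P)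
      : Ω → ℝ) =ᵐ[P] Av T W n f := by
    intro n
    have hit : ∀ k : ℕ, ((U^[k] (hfL.toLp f) : Lp ℝ 2 P) : Ω → ℝ) =ᵐ[P]
        fun ω => f (T^[W * k] ω) := by
      intro k
      have h1 : U^[k] = Lp.compMeasurePreserving (T^[W])^[k] (hS.iterate k) :=
        Lp.compMeasurePreserving_iterate hS k
      rw [h1]
      refine (Lp.coeFn_compMeasurePreserving _ (hS.iterate k)).trans ?_
      have h2 := (hS.iterate k).quasiMeasurePreserving.ae_eq_comp hfL.coeFn_toLp
      refine h2.trans ?_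
      rw [← Function.iterate_mul]
      rfl
    have hsum : ∀ n : ℕ, ((∑ k ∈ range n, U^[k] (hfL.toLp f) : Lp ℝ 2 P) : Ω → ℝ) =ᵐ[P]
        fun ω => ∑ k ∈ range n, f (T^[W * k] ω) := by
      intro n
      induction n with
      | zero =>
        simp only [Finset.range_zero, Finset.sum_empty]
        exact Lp.coeFn_zero _ _ _
      | succ n ih =>
        rw [Finset.sum_range_succ]
        refine (Lp.coeFn_add _ _).trans ?_
        filter_upwards [ih, hit n] with ω h1 h2
        rw [Pi.add_apply, h1, h2, Finset.sum_range_succ]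
    have h0 : birkhoffAverage ℝ U.toContinuousLinearMap _root_.id n (hfL.toLp f)
        = ((n : ℝ)⁻¹) • (∑ k ∈ range n, U^[k] (hfL.toLp f) : Lp ℝ 2 P) := rfl
    rw [h0]
    refine (Lp.coeFn_smul _ _).trans ?_
    filter_upwards [hsum n] with ω h1
    rw [Pi.smul_apply, h1, smul_eq_mul, Av, div_eq_inv_mul]
  -- the projection
  have hpr : (((U.toContinuousLinearMap.eqLocus
      (1 : Lp ℝ 2 P →L[ℝ] Lp ℝ 2 P)).orthogonalProjectionOnto (hfL.toLp f) : Lp ℝ 2 P) : Ω → ℝ)
      =ᵐ[P] P[f | Inv T W] := by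
    rw [proj_congr _ _ hK]
    exact hfL.condExpL2_ae_eq_condExp (𝕜 := ℝ) hm
  have hlim := (tendsto_iff_norm_sub_tendsto_zero.1 key).pow 2
  rw [zero_pow two_ne_zero] at hlim
  refine hlim.congr fun n => ?_
  rw [← real_inner_self_eq_norm_sq, L2.inner_def]
  refine integral_congr_ae ?_
  filter_upwards [Lp.coeFn_sub (birkhoffAverage ℝ U.toContinuousLinearMap _root_.id n
    (hfL.toLp f)) ((U.toContinuousLinearMap.eqLocus
      (1 : Lp ℝ 2 P →L[ℝ] Lp ℝ 2 P)).orthogonalProjectionOnto (hfL.toLp f) : Lp ℝ 2 P),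
    hav n, hpr] with ω h1 h2 h3
  rw [h1, Pi.sub_apply, h2, h3, real_inner_self_eq_norm_sq, Real.norm_eq_abs, sq_abs]

end Pool.Agent.H26.AG
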